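import Mathlib
import Pool.Agent.Q252.IC.E

/-!
# The abc conjecture over `ℤ[(1 + √5) / 2]` and the icosahedral equation `x² + y³ = 1728 z⁵`

Let `K = ℚ(√5)`, with the ring of integers `𝓞 K = ℤ[(1 + √5) / 2]`. The abc conjecture over `𝓞 K` (for all triples
`a + b + c = 0` in lowest terms) is equivalent to its restriction to the coprime solutions of ONE equation, that is,
to the triples `(x², y³, -1728 z⁵)` with `x² + y³ = 1728 z⁵`; moreover one may assume that `z` is divisible by a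
given integer `N ≥ 1`, and that `x, y, z` are the values of Klein's icosahedral forms of the degrees `30, 20, 12` at
coprime integers `w u, v` of `K`, `w = (√5 - 1) / 2`, with `N ∣ u v`.
-/

set_option autoImplicit false

namespace Pool.Agent.Results.MP_2a5a28_nt.IcosahedralEquation

open NumberField IsDedekindDomain

section

variable {K : Type} [Field K] [NumberField K]

/-- the triples in lowest terms with `a + b + c = 0` and `abc ≠ 0` -/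
structure Triple (t : 𝓞 K × 𝓞 K × 𝓞 K) : Prop where
  sum : t.1 + t.2.1 + t.2.2 = 0
  ne : t.1 * t.2.1 * t.2.2 ≠ 0
  cop : Ideal.span {t.1, t.2.1, t.2.2} = (⊤ : Ideal (𝓞 K))

/-- the height `H(a, b, c)`: the product over the field embeddings `φ : K → ℂ` (two real ones when
`K = ℚ(√5)`) of `max (|φ a|, |φ b|, |φ c|)` -/
noncomputable def height (t : 𝓞 K × 𝓞 K × 𝓞 K) : ℝ :=
  ∏ φ : K →+* ℂ, max ‖φ t.1‖ (max ‖φ t.2.1‖ ‖φ t.2.2‖)

/-- the radical: the product of the norms of the prime ideals dividing `abc` -/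
noncomputable def rad (t : 𝓞 K × 𝓞 K × 𝓞 K) : ℝ :=
  ∏ᶠ (P : HeightOneSpectrum (𝓞 K)) (_ : t.1 * t.2.1 * t.2.2 ∈ P.asIdeal),
    (Ideal.absNorm P.asIdeal : ℝ)

/-- the abc inequality, with every `ε > 0`, for the triples in lowest terms that belong to `T` -/
def ABCOn (T : Set (𝓞 K × 𝓞 K × 𝓞 K)) : Prop :=
  ∀ ε : ℝ, 0 < ε → ∃ C : ℝ, ∀ t ∈ T, Triple t → height t ≤ C * rad t ^ (1 + ε)

variable (K) in
/-- the abc conjecture over `𝓞 K` -/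
def ABC : Prop := ABCOn (Set.univ : Set (𝓞 K × 𝓞 K × 𝓞 K))

variable (K) in
/-- The triples `(x², y³, -1728 z⁵)` with `N ∣ z`; such a triple has the sum `0` if and only if
`x² + y³ = 1728 z⁵`. -/
def Equation (N : ℕ) : Set (𝓞 K × 𝓞 K × 𝓞 K) :=
  {t | ∃ x y z : 𝓞 K, (N : 𝓞 K) ∣ z ∧ t = (x ^ 2, y ^ 3, -1728 * z ^ 5)}

/-- Klein's form of degree `12` -/
def f12 (x y : 𝓞 K) : 𝓞 K := x * y * (x ^ 10 + 11 * x ^ 5 * y ^ 5 - y ^ 10)

/-- Klein's form of degree `20` -/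
def f20 (x y : 𝓞 K) : 𝓞 K :=
  -(x ^ 20 + y ^ 20) + 228 * (x ^ 15 * y ^ 5 - x ^ 5 * y ^ 15) - 494 * x ^ 10 * y ^ 10

/-- Klein's form of degree `30` -/
def f30 (x y : 𝓞 K) : 𝓞 K :=
  x ^ 30 + y ^ 30 + 522 * (x ^ 25 * y ^ 5 - x ^ 5 * y ^ 25) - 10005 * (x ^ 20 * y ^ 10 + x ^ 10 * y ^ 20)

/-- The triples `(f30², f20³, -1728 f12⁵)` with the forms taken at `(w u, v)`, for coprime `u`, `v` such that
`N ∣ u v`. -/
def Forms (w : 𝓞 K) (N : ℕ) : Set (𝓞 K × 𝓞 K × 𝓞 K) :=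
  {t | ∃ u v : 𝓞 K, IsCoprime u v ∧ (N : 𝓞 K) ∣ u * v ∧
    t = (f30 (w * u) v ^ 2, f20 (w * u) v ^ 3, -1728 * f12 (w * u) v ^ 5)}

theorem tr {t : 𝓞 K × 𝓞 K × 𝓞 K} (h : Pool.Agent.Q252.IC.Triple t) : Triple t := ⟨h.sum, h.ne, h.cop⟩

theorem tr' {t : 𝓞 K × 𝓞 K × 𝓞 K} (h : Triple t) : Pool.Agent.Q252.IC.Triple t := ⟨h.sum, h.ne, h.cop⟩

theorem mono {T T' : Set (𝓞 K × 𝓞 K × 𝓞 K)} (h : T ⊆ T') (H : ABCOn T') : ABCOn T := by
  intro ε hε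
  obtain ⟨C, hC⟩ := H ε hε
  exact ⟨C, fun t ht => hC t (h ht)⟩

theorem forms_eq (w : 𝓞 K) (N : ℕ) : Forms w N = Pool.Agent.Q252.IC.Forms w (N : 𝓞 K) := by
  ext t
  constructor
  · rintro ⟨u, v, h1, h2, h3⟩
    exact ⟨u, v, h1, h2, h3⟩
  · rintro ⟨u, v, h1, h2, h3⟩
    exact ⟨u, v, h1, h2, h3⟩

theorem forms_mono (w : 𝓞 K) {N M : ℕ} (h : N ∣ M) : Forms w M ⊆ Forms w N := by
  rintro t ⟨u, v, h1, h2, h3⟩
  exact ⟨u, v, h1, (Nat.cast_dvd_cast h).trans h2, h3⟩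

theorem forms_sub (w : 𝓞 K) (N : ℕ) : Forms w N ⊆ Equation K N := by
  rintro t ⟨u, v, h1, h2, h3⟩
  refine ⟨f30 (w * u) v, f20 (w * u) v, f12 (w * u) v, ?_, h3⟩
  unfold f12
  have : w * u * v * ((w * u) ^ 10 + 11 * (w * u) ^ 5 * v ^ 5 - v ^ 10) =
      (u * v) * (w * ((w * u) ^ 10 + 11 * (w * u) ^ 5 * v ^ 5 - v ^ 10)) := by ring
  rw [this]
  exact Dvd.dvd.mul_right h2 _

theorem back (hK : Module.finrank ℚ K = 2) {s : K} (hs : s ^ 2 = 5) {w : 𝓞 K} (hw : w ^ 2 + w = 1) {N : ℕ}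
    (hN : 0 < N) (H : ABCOn (Forms w N)) : ABC K := by
  have h1 : ABCOn (Forms w (30 * N)) := mono (forms_mono w (Nat.dvd_mul_left N 30)) H
  have h2 : Pool.Agent.Q252.IC.ABCOn (Pool.Agent.Q252.IC.Forms w ((30 * N : ℕ) : 𝓞 K)) := by
    rw [← forms_eq]
    intro ε hε
    obtain ⟨C, hC⟩ := h1 ε hε
    exact ⟨C, fun t ht ht' => hC t ht (tr ht')⟩
  have hM : ((30 * N : ℕ) : 𝓞 K) ≠ 0 := by
    rw [Nat.cast_ne_zero]
    omega
  have h30 : (30 : 𝓞 K) ∣ ((30 * N : ℕ) : 𝓞 K) := by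
    rw [Nat.cast_mul]
    exact Dvd.intro _ rfl
  have h3 := Pool.Agent.Q252.IC.main hK hs (w := w) (by linear_combination hw) hM h30 h2
  intro ε hε
  obtain ⟨C, hC⟩ := h3 ε hε
  exact ⟨C, fun t ht ht' => hC t ht (tr' ht')⟩

end

/-- **The coprime solutions of the icosahedral equation carry the whole abc conjecture over `ℤ[(1 + √5) / 2]`.** -/
theorem result (K : Type) [Field K] [NumberField K] (hK : Module.finrank ℚ K = 2) (hs : ∃ s : K, s ^ 2 = 5)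
    (N : ℕ) (hN : 0 < N) :
    (ABC K ↔ ABCOn (Equation K N)) ∧
    (∃ w : 𝓞 K, w ^ 2 + w = 1) ∧ ∀ w : 𝓞 K, w ^ 2 + w = 1 → (ABC K ↔ ABCOn (Forms w N)) := by
  obtain ⟨s, hs⟩ := hs
  have hint : IsIntegral ℤ ((1 + s) / 2 - 1) :=
    (Pool.Agent.Y382.Gold.phi_int hs).sub isIntegral_one
  have hw : ∃ w : 𝓞 K, w ^ 2 + w = 1 := by
    obtain ⟨w, hw⟩ : ∃ w : 𝓞 K, (w : K) = (1 + s) / 2 - 1 := ⟨⟨_, hint⟩, rfl⟩
    refine ⟨w, ?_⟩
    apply RingOfIntegers.coe_injective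
    have hw' : algebraMap (𝓞 K) K w = (1 + s) / 2 - 1 := hw
    rw [map_add, map_pow, map_one, hw']
    linear_combination (1 / 4) * hs
  refine ⟨⟨mono (Set.subset_univ _), fun H => ?_⟩, hw, fun w hw => ⟨mono (Set.subset_univ _), back hK hs hw hN⟩⟩
  obtain ⟨w, hw⟩ := hw
  exact back hK hs hw hN (mono (forms_sub w N) H)

end Pool.Agent.Results.MP_2a5a28_nt.IcosahedralEquation
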