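import Mathlib
import Pool.Agent.Q103.SD.NFThreeMain

/-!
# The abc inequality over `ℤ[(1 + √5) / 2]` for terms composed of numbers with small digits

Let `t` be an integer of `ℚ(√5)` both conjugates of which are at least `T` in absolute value (the
base). The values `q i = F i (t)` of polynomials over the integers are numbers with the digits
`(F i).coeff j` in base `t`. Let the total number of digits be bounded, both conjugates of all digits
at most `T ^ δ` and the first and last digits `1` or `-1`. Consider `a + b + c = 0`.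

* If `b` and `c` are products of powers of the `q i` (exponents up to `T ^ δ`, any small factors),
  and `a` is an arbitrary integer, then `H(a, b, c) |N(t)| ^ (1 - ε) rad(a) ≤ |N(a)| rad(a, b, c)`,
  and for a power `t = π ^ v` of a prime element and `a = π ^ m * a'` one has
  `H(a, b, c) rad(a') ≤ |N(t)| ^ ε |N(a')| rad(a, b, c)`, if `b`, `c` are coprime and the product of
  the `q i` that occur is squarefree.
* If `a`, `b` and `c` are such products of pairwise coprime `q i`, then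
  `H(a, b, c) |N(t)| ^ (1 - ε) ≤ rad(a, b, c)`.
-/

set_option autoImplicit false

namespace Pool.Agent.Results.MP_2a5a28_nt.SmallDigitTerms

open Polynomial NumberField IsDedekindDomain

section Defs

variable {K : Type} [Field K] [NumberField K]

/-- `|N(y)|` -/
noncomputable def N (y : 𝓞 K) : ℝ := |((Algebra.norm ℚ (y : K) : ℚ) : ℝ)|

/-- the height `H(a, b, c)`: the product over the field embeddings `φ : K → ℂ` (two real ones when
`K = ℚ(√5)`) of `max (|φ a|, |φ b|, |φ c|)` -/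
noncomputable def H (a b c : 𝓞 K) : ℝ := ∏ φ : K →+* ℂ, max ‖φ a‖ (max ‖φ b‖ ‖φ c‖)

/-- the product of the norms of the prime ideals dividing `x`; `rad(a, b, c)` is `rad (a * b * c)` -/
noncomputable def rad (x : 𝓞 K) : ℝ :=
  ∏ᶠ (P : HeightOneSpectrum (𝓞 K)) (_ : x ∈ P.asIdeal), (Ideal.absNorm P.asIdeal : ℝ)

/-- The conditions on the base `t` and the polynomials `F i`, that is, on the numbers `F i (t)`. -/
structure Numbers (D : ℕ) (δ T : ℝ) {n : ℕ} (t : 𝓞 K) (F : Fin n → (𝓞 K)[X]) : Prop where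
  /-- all conjugates of the base are at least `T` -/
  base : ∀ φ : K →+* ℂ, T ≤ ‖φ t‖
  /-- at least two digits -/
  two_digits : ∀ i, 0 < (F i).natDegree
  /-- bounded number of digits -/
  number : ∑ i, (F i).natDegree ≤ D
  /-- all conjugates of the digits are at most `T ^ δ` -/
  digits : ∀ i j, ∀ φ : K →+* ℂ, ‖φ ((F i).coeff j)‖ ≤ T ^ δ
  /-- the first digits are `1` or `-1` -/
  first : ∀ i, (F i).leadingCoeff = 1 ∨ (F i).leadingCoeff = -1
  /-- the last digits are `1` or `-1` -/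
  last : ∀ i, (F i).coeff 0 = 1 ∨ (F i).coeff 0 = -1

/-- `x` is the product of the `e i`-th powers of the numbers `F i (t)` and of a nonzero integer `u`
with conjugates at most `T ^ δ`, where the sum of the exponents is at most `T ^ δ`. -/
def Composed (δ T : ℝ) {n : ℕ} (t : 𝓞 K) (F : Fin n → (𝓞 K)[X]) (e : Fin n → ℕ) (x : 𝓞 K) : Prop :=
  ∃ u : 𝓞 K, u ≠ 0 ∧ (∀ φ : K →+* ℂ, ‖φ u‖ ≤ T ^ δ) ∧ ((∑ i, e i : ℕ) : ℝ) ≤ T ^ δ ∧
    x = u * ∏ i, (F i).eval t ^ e i

end Defs

section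

variable {K : Type} [Field K] [NumberField K]

open Pool.Agent.Q103.SD Pool.Agent.Q103.SD.NF

theorem sum_data {D : ℕ} {δ T : ℝ} {n : ℕ} {t : 𝓞 K} {F : Fin n → (𝓞 K)[X]}
    (hF : Numbers D δ T t F) : SumData T (T ^ δ) D t F := by
  have h1 : ∀ x : 𝓞 K, (x = 1 ∨ x = -1) → ∀ φ : K →+* ℂ, ‖φ x‖ ≤ 1 := by
    rintro x (rfl | rfl) φ <;> simp
  refine ⟨hF.base, hF.number, hF.digits, fun i => h1 _ (hF.first i), fun i => h1 _ (hF.last i), ?_⟩
  intro i h0
  rcases hF.last i with h | h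
  · rw [h] at h0
    exact one_ne_zero h0
  · rw [h] at h0
    exact one_ne_zero (neg_eq_zero.mp h0)

theorem H_neg (a b c : 𝓞 K) : HH a b (-c) = H a b c := by
  unfold HH H
  apply Finset.prod_congr rfl
  intro φ _
  have : ‖φ ((-c : 𝓞 K) : K)‖ = ‖φ (c : K)‖ := by
    rw [← norm_neg (φ (c : K)), ← map_neg]
    rfl
  rw [this]

theorem rad_neg (a b c : 𝓞 K) : radK (a * b * -c) = rad (a * b * c) := by
  unfold radK rad
  have h1 : a * b * -c = -(a * b * c) := by ring
  rw [h1]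
  apply finprod_congr
  intro v
  rw [neg_mem_iff]

/-- **The abc inequality over the integers of `ℚ(√5)` for numbers composed of numbers with small
digits.** -/
theorem result (D : ℕ) (ε : ℝ) (hε : 0 < ε) : ∃ δ T₀ : ℝ, 0 < δ ∧ ∀ T : ℝ, T₀ ≤ T →
    ∀ (K : Type) [Field K] [NumberField K], Module.finrank ℚ K = 2 → (∃ α : K, α ^ 2 = α + 1) →
    ∀ (t : 𝓞 K) (n : ℕ) (F : Fin n → (𝓞 K)[X]), Numbers D δ T t F →
      (∀ (a b c : 𝓞 K) (β γ : Fin n → ℕ) (Q : 𝓞 K), a + b + c = 0 → a ≠ 0 →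
        Composed δ T t F β b → Composed δ T t F γ c → (∃ i, β i ≠ 0 ∨ γ i ≠ 0) →
        Q = ∏ i ∈ Finset.univ.filter (fun i => β i ≠ 0 ∨ γ i ≠ 0), (F i).eval t →
        H a b c * N t ^ (1 - ε) ≤ N a * N Q ∧
        (∀ (π a' : 𝓞 K) (v m : ℕ), Prime π → t = π ^ v → a = π ^ m * a' →
          H a b c ≤ N t ^ ε * (N a' * N Q)) ∧
        (IsCoprime b c → Squarefree (Ideal.span {Q}) →
          H a b c * N t ^ (1 - ε) * rad a ≤ N a * rad (a * b * c) ∧
          ∀ (π a' : 𝓞 K) (v m : ℕ), Prime π → t = π ^ v → a = π ^ m * a' →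
            H a b c * rad a' ≤ N t ^ ε * (N a' * rad (a * b * c)))) ∧
      ((∀ i j, i ≠ j → IsCoprime ((F i).eval t) ((F j).eval t)) →
        ∀ (a b c : 𝓞 K) (α β γ : Fin n → ℕ) (Q : 𝓞 K), a + b + c = 0 →
        IsCoprime a b → Composed δ T t F α a → Composed δ T t F β b → Composed δ T t F γ c →
        (∃ i, α i ≠ 0 ∨ β i ≠ 0 ∨ γ i ≠ 0) →
        Q = ∏ i ∈ Finset.univ.filter (fun i => α i ≠ 0 ∨ β i ≠ 0 ∨ γ i ≠ 0), (F i).eval t →
        H a b c * N t ^ (1 - ε) ≤ N Q ∧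
        (Squarefree (Ideal.span {Q}) → H a b c * N t ^ (1 - ε) ≤ rad (a * b * c))) := by
  classical
  obtain ⟨d1, hd1, h1⟩ := free_main D 2 hε
  obtain ⟨d2, hd2, h2⟩ := three_main D hε
  obtain ⟨δ, hδd⟩ : ∃ δ, δ = min d1 d2 := ⟨_, rfl⟩
  have hδ : 0 < δ := by rw [hδd]; exact lt_min hd1 hd2
  obtain ⟨T1, hT1, g1⟩ := h1 δ hδ (by rw [hδd]; exact min_le_left _ _)
  obtain ⟨T2, hT2, g2⟩ := h2 δ hδ (by rw [hδd]; exact min_le_right _ _)
  refine ⟨δ, max T1 T2, hδ, ?_⟩
  intro T hT K _ _ hK _ t n F hF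
  have ht1 : T1 ≤ T := (le_max_left _ _).trans hT
  have ht2 : T2 ≤ T := (le_max_right _ _).trans hT
  have hH : 1 ≤ T ^ δ := Real.one_le_rpow (by linarith) hδ.le
  have hSD := sum_data hF
  constructor
  · intro a b c β γ Q habc ha0 hb hc hne hQ
    obtain ⟨ub, hub0, hub, hβ, hb⟩ := hb
    obtain ⟨uc, huc0, huc, hγ, hc⟩ := hc
    have hU : (used2 β γ).Nonempty := by
      obtain ⟨i, hi⟩ := hne
      exact ⟨i, by unfold used2; rw [Finset.mem_filter]; exact ⟨Finset.mem_univ _, hi⟩⟩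
    have hmain := g1 T ht1 K hK.le n t F hSD hF.two_digits ub (-uc)
      hub0 (neg_ne_zero.mpr huc0) hub (fun σ => by
        have := huc σ
        simpa using this) β γ hβ hγ hU
      a b (-c) Q hb (by rw [hc]; ring) (by linear_combination habc) ha0
      (by rw [hQ]; rfl)
    obtain ⟨-, -, m1, m2, m3⟩ := hmain
    rw [H_neg] at m1
    rw [rad_neg, H_neg] at m3
    rw [H_neg] at m2
    refine ⟨m1, m2, ?_⟩
    intro hco hsq
    exact m3 hco.neg_right hsq
  · intro hpw a b c α β γ Q habc hco ha hb hc hne hQ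
    obtain ⟨ua, hua0, hua, hα, ha⟩ := ha
    obtain ⟨ub, hub0, hub, hβ, hb⟩ := hb
    obtain ⟨uc, huc0, huc, hγ, hc⟩ := hc
    have hU : (Deg.used α β γ).Nonempty := by
      obtain ⟨i, hi⟩ := hne
      exact ⟨i, by unfold Deg.used; rw [Finset.mem_filter]; exact ⟨Finset.mem_univ _, hi⟩⟩
    have hDK0 := hSD.dataK hH hF.two_digits
    have hDK : DataK T (T ^ δ) D t F ua ub (-uc) α β γ :=
      ⟨hDK0.big, hDK0.pos, hDK0.deg, hDK0.coeff, hDK0.last, hDK0.first,
        hua0, hub0, neg_ne_zero.mpr huc0, hua, hub, fun σ => by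
          have := huc σ
          simpa using this, hα, hβ, hγ⟩
    have hmain := g2 T ht2 K n t F ua ub (-uc) α β γ hDK hpw a b (-c) Q
      ha hb (by rw [hc]; ring) (by linear_combination habc)
      hco hU (by rw [hQ]; rfl)
    obtain ⟨-, -, m1, m2⟩ := hmain
    rw [rad_neg, H_neg] at m2
    rw [H_neg] at m1
    exact ⟨m1, m2⟩

end

end Pool.Agent.Results.MP_2a5a28_nt.SmallDigitTerms
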