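import Pool.Agent.Q84.NX.Fam3
import Pool.Agent.Results.MP_2a5a28_nt.AlmostAllTriples

/-!
# The radical of all triples of all heights over `ℚ(√5)` related to the primes of a string

There are `ν > 0` and `c > 0`, for all `κ > 0` and `m` there is `c' > 0` and for every `Z` a number `D` with the following
property. For every large `X` there is a set `S` of at most `(log X) ^ (49 / 50)` primes, all larger than `Z`, such that for
EVERY function `f` with values `1` and `-1` on the primes at least `X ^ (1 - κ)` integers `n`, `X < n ≤ 3X`, satisfy: the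
interval `[n, n + D]` contains at least `m` primes, and for every prime `p` in it

* the Legendre symbol `(p / q)` is `f q` for all odd primes `q ≤ c' log X` outside `S`;
* ALL triples `a + b + c = 0` of integers of `ℚ(√5)` in lowest terms with `abc ≠ 0`, of whatever height, such that for one of
  the members `x` the product of the norms of the primes dividing `x` has a divisor `r` within `p ^ c` of a positive multiple
  of `p` (for instance: a prime over `p` divides `abc`) satisfy `rad (a, b, c) > p ^ (3 / 2 + ν)`.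

Method: the starting result `AlmostAllTriples` counts the triples of all heights with `H ≥ rad ^ M`, `M > 1/3`; a triple with
`rad ≤ p ^ (3 / 2 + ν)` and a member divisible by a prime over `p` is one of them, since `H ≥ |N(x)|`; the divisor bound; few
primes divide a number near a divisor of one of the radicals (`Q84/NX/Core`, `Q84/NX/TriJ`); the Maynard-Tao theorem relative
to a modulus which is a small power of `X`, in the form that it avoids arbitrary exceptional sets of size `X ^ (1 - η)`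
(`Q84/MB/E1-E4`), gives the strings.
-/

set_option autoImplicit false

open scoped Classical

namespace Pool.Agent.Results.MP_2a5a28_nt.StringsAllHeights

open Finset Filter NumberField IsDedekindDomain
open Pool.Agent.Results.MP_2a5a28_nt.AlmostAllTriples (height rad Triple Reps Exceptions)

variable {K : Type} [Field K] [NumberField K]

/-- the product of the norms of the prime ideals dividing `x` -/
noncomputable def radOne (x : 𝓞 K) : ℕ :=
  ∏ᶠ (P : HeightOneSpectrum (𝓞 K)) (_ : x ∈ P.asIdeal), Ideal.absNorm P.asIdeal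

/-- `rad > p ^ (3 / 2 + ν)` for all triples, for which `radOne x` has a divisor `r` within `p ^ c` of a positive multiple of
`p` for a member `x` -/
def Fine (K : Type) [Field K] [NumberField K] (ν c : ℝ) (p : ℕ) : Prop :=
  ∀ (t : 𝓞 K × 𝓞 K × 𝓞 K) (k r : ℕ), Triple t → 1 ≤ k → |(r : ℝ) - k * p| ≤ (p : ℝ) ^ c →
    (r ∣ radOne t.1 ∨ r ∣ radOne t.2.1 ∨ r ∣ radOne t.2.2) → (p : ℝ) ^ (3 / 2 + ν) < rad t

/-- only finitely many primes divide `x` -/
theorem finite_primes (x : 𝓞 K) (hx : x ≠ 0) : {P : HeightOneSpectrum (𝓞 K) | x ∈ P.asIdeal}.Finite := by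
  have h : {v : HeightOneSpectrum (𝓞 K) | v.asIdeal ∣ Ideal.span {x}}.Finite := by
    apply Ideal.finite_factors
    simp only [Submodule.zero_eq_bot, ne_eq, Ideal.span_singleton_eq_bot, hx, not_false_eq_true]
  refine h.subset ?_
  intro P hP
  exact Ideal.dvd_span_singleton.2 hP

theorem radOne_eq (x : 𝓞 K) (hx : x ≠ 0) :
    radOne x = ∏ P ∈ (finite_primes x hx).toFinset, Ideal.absNorm P.asIdeal :=
  finprod_mem_eq_finite_toFinset_prod _ (finite_primes x hx)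

theorem rad_eq (t : 𝓞 K × 𝓞 K × 𝓞 K) (ht : t.1 * t.2.1 * t.2.2 ≠ 0) :
    1 ≤ radOne (t.1 * t.2.1 * t.2.2) ∧ (radOne (t.1 * t.2.1 * t.2.2) : ℝ) = rad t := by
  have h1 := radOne_eq _ ht
  have h2 : rad t = ∏ P ∈ (finite_primes _ ht).toFinset, (Ideal.absNorm P.asIdeal : ℝ) :=
    finprod_mem_eq_finite_toFinset_prod _ (finite_primes _ ht)
  constructor
  · rw [h1]
    refine Nat.one_le_iff_ne_zero.2 (prod_ne_zero_iff.2 fun v _ => ?_)
    rw [Ne, Ideal.absNorm_eq_zero_iff]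
    exact v.ne_bot
  · rw [h1, h2]
    push_cast
    rfl

theorem radOne_unit (x : 𝓞 K) (u : (𝓞 K)ˣ) : radOne ((u : 𝓞 K) * x) = radOne x := by
  unfold radOne
  apply finprod_congr
  intro P
  have h2 : (u : 𝓞 K) * x ∈ P.asIdeal ↔ x ∈ P.asIdeal := by
    rw [Ideal.unit_mul_mem_iff_mem _ (Units.isUnit _)]
  exact finprod_congr_Prop (propext h2) (fun _ => rfl)

theorem radOne_dvd (x y : 𝓞 K) (hy : y ≠ 0) (hxy : x ∣ y) : radOne x ∣ radOne y := by
  have hx : x ≠ 0 := fun h => hy (by rw [h] at hxy; exact zero_dvd_iff.1 hxy)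
  rw [radOne_eq x hx, radOne_eq y hy]
  apply prod_dvd_prod_of_subset
  intro P hP
  rw [Set.Finite.mem_toFinset] at hP ⊢
  obtain ⟨z, rfl⟩ := hxy
  exact Ideal.mul_mem_right z _ hP

/-- `radOne x ≤ |N(x)|` -/
theorem radOne_le (x : 𝓞 K) (hx : x ≠ 0) : (radOne x : ℝ) ≤ ∏ φ : K →+* ℂ, ‖φ x‖ := by
  have h1 : ∏ P ∈ (finite_primes x hx).toFinset, P.asIdeal ∣ Ideal.span {x} := by
    obtain ⟨s, hs⟩ : ∃ s, s = (finite_primes x hx).toFinset.image HeightOneSpectrum.asIdeal := ⟨_, rfl⟩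
    have h2 : ∏ P ∈ (finite_primes x hx).toFinset, P.asIdeal = ∏ I ∈ s, I := by
      rw [hs, prod_image]
      intro P _ Q _ h
      exact HeightOneSpectrum.ext h
    rw [h2]
    apply Finset.prod_primes_dvd
    · intro I hI
      rw [hs, mem_image] at hI
      obtain ⟨P, -, rfl⟩ := hI
      exact P.prime
    · intro I hI
      rw [hs, mem_image] at hI
      obtain ⟨P, hP, rfl⟩ := hI
      rw [Set.Finite.mem_toFinset] at hP
      exact Ideal.dvd_span_singleton.2 hP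
  have h2 : radOne x ∣ Ideal.absNorm (Ideal.span {x}) := by
    rw [radOne_eq x hx]
    have h3 := map_dvd Ideal.absNorm h1
    rwa [map_prod] at h3
  have h3 : Ideal.absNorm (Ideal.span {x}) ≠ 0 := by
    rw [Ne, Ideal.absNorm_eq_zero_iff, Ideal.span_singleton_eq_bot]
    exact hx
  have h4 : radOne x ≤ Ideal.absNorm (Ideal.span {x}) := Nat.le_of_dvd (Nat.pos_of_ne_zero h3) h2
  have h5 : ((Ideal.absNorm (Ideal.span {x}) : ℕ) : ℝ) = ∏ φ : K →+* ℂ, ‖φ x‖ := by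
    rw [Ideal.absNorm_span_singleton]
    have h6 : (((Algebra.norm ℤ x).natAbs : ℕ) : ℝ) = ‖((Algebra.norm ℚ (x : K) : ℚ) : ℂ)‖ := by
      rw [← Algebra.coe_norm_int, Nat.cast_natAbs, Int.cast_abs]
      have h7 : (((Algebra.norm ℤ x : ℤ) : ℚ) : ℂ) = (((Algebra.norm ℤ x : ℤ) : ℝ) : ℂ) := by push_cast; rfl
      rw [h7, Complex.norm_real, Real.norm_eq_abs]
    rw [h6]
    have h8 := Algebra.norm_eq_prod_embeddings ℚ ℂ (x : K)
    rw [eq_ratCast] at h8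
    rw [h8, norm_prod]
    exact (Fintype.prod_equiv (RingHom.equivRatAlgHom K ℂ) (fun φ => ‖φ x‖) (fun f => ‖f x‖)
      fun _ => by simp [RingHom.equivRatAlgHom_apply]).symm
  rw [← h5]
  exact_mod_cast h4

/-- the height is at least the norm of a member -/
theorem le_height (t : 𝓞 K × 𝓞 K × 𝓞 K) (r : ℕ) (ht : t.1 * t.2.1 * t.2.2 ≠ 0)
    (hr : r ∣ radOne t.1 ∨ r ∣ radOne t.2.1 ∨ r ∣ radOne t.2.2) : (r : ℝ) ≤ height t := by
  have h0 : t.1 ≠ 0 ∧ t.2.1 ≠ 0 ∧ t.2.2 ≠ 0 :=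
    ⟨fun h => ht (by rw [h]; ring), fun h => ht (by rw [h]; ring), fun h => ht (by rw [h]; ring)⟩
  have hpos : ∀ x : 𝓞 K, x ≠ 0 → 0 < radOne x := by
    intro x hx
    rw [radOne_eq x hx]
    refine Nat.pos_of_ne_zero (prod_ne_zero_iff.2 fun v _ => ?_)
    rw [Ne, Ideal.absNorm_eq_zero_iff]
    exact v.ne_bot
  have key : ∀ x : 𝓞 K, x ≠ 0 → r ∣ radOne x → (∀ φ : K →+* ℂ, ‖φ x‖ ≤ max ‖φ t.1‖ (max ‖φ t.2.1‖ ‖φ t.2.2‖)) →
      (r : ℝ) ≤ height t := by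
    intro x hx h1 h2
    have h3 : (r : ℝ) ≤ radOne x := by exact_mod_cast Nat.le_of_dvd (hpos x hx) h1
    exact h3.trans ((radOne_le x hx).trans (Finset.prod_le_prod (fun _ _ => norm_nonneg _) fun φ _ => h2 φ))
  rcases hr with h | h | h
  · exact key _ h0.1 h fun φ => le_max_left _ _
  · exact key _ h0.2.1 h fun φ => (le_max_left _ _).trans (le_max_right _ _)
  · exact key _ h0.2.2 h fun φ => (le_max_right _ _).trans (le_max_right _ _)

/-- the height does not depend on units -/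
theorem height_unit (t : 𝓞 K × 𝓞 K × 𝓞 K) (u : (𝓞 K)ˣ) :
    height ((u : 𝓞 K) * t.1, (u : 𝓞 K) * t.2.1, (u : 𝓞 K) * t.2.2) = height t := by
  have h1 : ∀ φ : K →+* ℂ, max ‖φ (((u : 𝓞 K) * t.1 : 𝓞 K) : K)‖ (max ‖φ (((u : 𝓞 K) * t.2.1 : 𝓞 K) : K)‖
      ‖φ (((u : 𝓞 K) * t.2.2 : 𝓞 K) : K)‖) =
      ‖φ ((u : 𝓞 K) : K)‖ * max ‖φ t.1‖ (max ‖φ t.2.1‖ ‖φ t.2.2‖) := by
    intro φ
    have e : ∀ x : 𝓞 K, ‖φ (((u : 𝓞 K) * x : 𝓞 K) : K)‖ = ‖φ ((u : 𝓞 K) : K)‖ * ‖φ x‖ := by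
      intro x
      rw [show (((u : 𝓞 K) * x : 𝓞 K) : K) = ((u : 𝓞 K) : K) * (x : K) from rfl, map_mul, norm_mul]
    rw [e, e, e, mul_max_of_nonneg _ _ (norm_nonneg _), mul_max_of_nonneg _ _ (norm_nonneg _)]
  have h2 : ∏ φ : K →+* ℂ, ‖φ ((u : 𝓞 K) : K)‖ = 1 := by
    have h3 := Algebra.norm_eq_prod_embeddings ℚ ℂ ((u : 𝓞 K) : K)
    rw [eq_ratCast] at h3
    have h4 : ∏ φ : K →+* ℂ, ‖φ ((u : 𝓞 K) : K)‖ = ‖((Algebra.norm ℚ ((u : 𝓞 K) : K) : ℚ) : ℂ)‖ := by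
      rw [h3, norm_prod]
      exact Fintype.prod_equiv (RingHom.equivRatAlgHom K ℂ) (fun φ => ‖φ ((u : 𝓞 K) : K)‖)
        (fun f => ‖f ((u : 𝓞 K) : K)‖) fun _ => by simp [RingHom.equivRatAlgHom_apply]
    have h5 := NumberField.Units.norm K u
    rw [h4, show ((Algebra.norm ℚ ((u : 𝓞 K) : K) : ℚ) : ℂ) = (((Algebra.norm ℚ ((u : 𝓞 K) : K) : ℚ) : ℝ) : ℂ) by
      push_cast; rfl, Complex.norm_real, Real.norm_eq_abs]
    exact_mod_cast h5
  unfold height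
  simp only
  rw [Finset.prod_congr rfl fun φ _ => h1 φ, Finset.prod_mul_distrib, h2, one_mul]

theorem rad_unit (t : 𝓞 K × 𝓞 K × 𝓞 K) (u : (𝓞 K)ˣ) :
    radOne (((u : 𝓞 K) * t.1) * ((u : 𝓞 K) * t.2.1) * ((u : 𝓞 K) * t.2.2)) = radOne (t.1 * t.2.1 * t.2.2) := by
  have h1 : ((u : 𝓞 K) * t.1) * ((u : 𝓞 K) * t.2.1) * ((u : 𝓞 K) * t.2.2) =
      ((u * u * u : (𝓞 K)ˣ) : 𝓞 K) * (t.1 * t.2.1 * t.2.2) := by
    push_cast
    ring
  rw [h1, radOne_unit]

/-- the radicals of the exceptional triples with `rad ≤ B ^ s` -/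
def Rads (K : Type) [Field K] [NumberField K] (s B : ℝ) : Set ℕ :=
  {u | 1 ≤ B ∧ ∃ t : 𝓞 K × 𝓞 K × 𝓞 K, Triple t ∧ rad t ≤ B ^ s ∧ rad t ^ (1 / 2 : ℝ) ≤ height t ∧
    radOne (t.1 * t.2.1 * t.2.2) = u}

/-- **Theorem.** -/
theorem result : ∀ (K : Type) [Field K] [NumberField K], Module.finrank ℚ K = 2 → (∃ s : K, s ^ 2 = 5) →
    ∃ ν c : ℝ, 0 < ν ∧ 0 < c ∧
    ∀ κ : ℝ, 0 < κ → ∀ m : ℕ, ∃ c' : ℝ, 0 < c' ∧
    ∀ Z : ℕ, ∃ D : ℕ, ∃ X₀ : ℝ, ∀ X : ℝ, X₀ ≤ X →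
    ∃ S : Finset ℕ, (∀ q ∈ S, q.Prime ∧ Z < q) ∧ (S.card : ℝ) ≤ (Real.log X) ^ (49 / 50 : ℝ) ∧
    ∀ f : ℕ → ℤ, (∀ q, f q = 1 ∨ f q = -1) →
      X ^ (1 - κ) ≤ (((Icc 1 ⌊3 * X⌋₊).filter fun n : ℕ => X < n ∧
        m ≤ ((Icc n (n + D)).filter Nat.Prime).card ∧
        ∀ p ∈ Icc n (n + D), p.Prime → Fine K ν c p ∧
          ∀ q : ℕ, q.Prime → q ≠ 2 → (q : ℝ) ≤ c' * Real.log X → q ∉ S → jacobiSym p q = f q).card : ℝ) := by
  intro K _ _ hK hs5
  obtain ⟨hreps, -, hexc, -⟩ := AlmostAllTriples.result K hK hs5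
  obtain ⟨⟨ν₀, C, hν₀, hC, hcount⟩, -⟩ := hexc (1 / 2) (by norm_num)
  obtain ⟨ν, hν⟩ : ∃ ν, ν = min ν₀ (1 / 8) := ⟨_, rfl⟩
  have hν0 : 0 < ν := by rw [hν]; exact lt_min hν₀ (by norm_num)
  have hν1 : ν ≤ ν₀ := by rw [hν]; exact min_le_left _ _
  have hν8 : ν ≤ 1 / 8 := by rw [hν]; exact min_le_right _ _
  obtain ⟨γ, hγ⟩ : ∃ γ, γ = (3 / 2 + ν) * (2 / 3 - ν) := ⟨_, rfl⟩
  have hγ0 : 0 ≤ γ := by
    rw [hγ]
    exact mul_nonneg (by linarith) (by linarith)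
  have hγ1 : γ < 1 := by
    rw [hγ]
    nlinarith
  have hmono : ∀ B B' : ℝ, B ≤ B' → Rads K (3 / 2 + ν) B ⊆ Rads K (3 / 2 + ν) B' := by
    rintro B B' hBB u ⟨h1, t, h2, h3, h4, h5⟩
    exact ⟨h1.trans hBB, t, h2, h3.trans (Real.rpow_le_rpow (by linarith) hBB (by linarith)), h4, h5⟩
  have hE : ∀ B : ℝ, 1 ≤ B → (Rads K (3 / 2 + ν) B).Finite ∧ ((Rads K (3 / 2 + ν) B).ncard : ℝ) ≤ C * B ^ γ := by
    intro B hB
    have hB0 : 0 < B := by linarith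
    obtain ⟨Y, hY⟩ : ∃ Y, Y = B ^ (3 / 2 + ν) := ⟨_, rfl⟩
    have hY1 : 1 ≤ Y := by rw [hY]; exact Real.one_le_rpow hB (by linarith)
    obtain ⟨E, hE⟩ := hreps Y hY1
    have hc := hcount Y hY1 E hE
    have hfin : (Exceptions (1 / 2) E).Finite := E.finite_toSet.subset fun t ht => ht.1
    have hsub : Rads K (3 / 2 + ν) B ⊆ (fun t : 𝓞 K × 𝓞 K × 𝓞 K => radOne (t.1 * t.2.1 * t.2.2)) ''
        Exceptions (1 / 2) E := by
      rintro u ⟨-, t, h1, h2, h3, h4⟩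
      rw [← hY] at h2
      obtain ⟨s, hs, w, hw⟩ := hE.full t h1 h2
      have hsT := (hE.mem s hs).1
      have h5 : radOne (t.1 * t.2.1 * t.2.2) = radOne (s.1 * s.2.1 * s.2.2) := by
        rw [hw]
        exact rad_unit s w
      have h6 : height t = height s := by rw [hw]; exact height_unit s w
      have h7 : rad t = rad s := by
        rw [← (rad_eq t h1.ne).2, ← (rad_eq s hsT.ne).2, h5]
      refine ⟨s, ⟨hs, ?_⟩, ?_⟩
      · rw [← h6, ← h7]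
        exact h3
      · show radOne (s.1 * s.2.1 * s.2.2) = u
        rw [← h5, h4]
    refine ⟨(hfin.image _).subset hsub, ?_⟩
    have h8 : ((Rads K (3 / 2 + ν) B).ncard : ℝ) ≤ ((Exceptions (1 / 2) E).ncard : ℝ) := by
      rw [Nat.cast_le]
      exact (Set.ncard_le_ncard hsub (hfin.image _)).trans (Set.ncard_image_le hfin)
    have h9 : Y ^ (2 / 3 - ν₀) ≤ B ^ γ := by
      calc Y ^ (2 / 3 - ν₀) ≤ Y ^ (2 / 3 - ν) := Real.rpow_le_rpow_of_exponent_le hY1 (by linarith)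
        _ = B ^ γ := by rw [hY, ← Real.rpow_mul hB0.le, hγ]
    exact h8.trans (hc.trans (mul_le_mul_of_nonneg_left h9 hC.le))
  obtain ⟨c, hc, hc4, hmain⟩ := Pool.Agent.Q84.NX.obj_strings (Rads K (3 / 2 + ν)) hmono id 2 (by norm_num) 1 (by
      rintro B hB u ⟨-, t, h1, h2, -, h4⟩
      obtain ⟨h5, h6⟩ := rad_eq t h1.ne
      rw [h4] at h5 h6
      refine ⟨h5, ?_⟩
      rw [id, h6]
      refine h2.trans ?_
      rw [← Real.rpow_natCast B 2]
      apply Real.rpow_le_rpow_of_exponent_le hB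
      push_cast
      linarith) 1 γ C one_pos hγ0 (by rw [one_mul]; exact hγ1) hE
  refine ⟨ν, c, hν0, hc, fun κ hκ m => ?_⟩
  obtain ⟨c', hc', h⟩ := hmain κ hκ m
  refine ⟨c', hc', fun Z => ?_⟩
  obtain ⟨D, X₀, hX₀⟩ := h Z
  refine ⟨D, max X₀ 1024, fun X hX => ?_⟩
  obtain ⟨S, hS1, hS2, hS3⟩ := hX₀ X ((le_max_left _ _).trans hX)
  refine ⟨S, hS1, hS2, fun f hf => (hS3 f hf).trans ?_⟩
  rw [Nat.cast_le]
  apply card_le_card
  intro n hn
  rw [mem_filter] at hn ⊢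
  obtain ⟨hn1, hn2, hn3, hn4⟩ := hn
  refine ⟨hn1, hn2, hn3, fun p hp hpp => ⟨?_, (hn4 p hp hpp).2⟩⟩
  have hgood := (hn4 p hp hpp).1
  have hp16 : (1024 : ℝ) ≤ p := by
    have h1 : (n : ℝ) ≤ p := by exact_mod_cast (mem_Icc.1 hp).1
    have h2 := (le_max_right X₀ 1024).trans hX
    linarith
  have hp0 : (0 : ℝ) < p := by linarith
  have hp1 : (1 : ℝ) ≤ p := by linarith
  have hpc : (p : ℝ) ^ c ≤ p / 2 := by
    have h1 : (p : ℝ) ^ c ≤ (p : ℝ) ^ (1 / 2 : ℝ) := Real.rpow_le_rpow_of_exponent_le hp1 (by linarith)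
    rw [← Real.sqrt_eq_rpow] at h1
    refine h1.trans ?_
    rw [Real.sqrt_le_left (by positivity)]
    nlinarith
  intro t k r ht hk hkr hr
  by_contra hno
  rw [not_lt] at hno
  have hne := ht.ne
  obtain ⟨h5, h6⟩ := rad_eq t hne
  -- the divisor of the radical
  have hr1 : r ∣ radOne (t.1 * t.2.1 * t.2.2) := by
    rcases hr with h | h | h
    · exact h.trans (radOne_dvd _ _ hne ⟨t.2.1 * t.2.2, by ring⟩)
    · exact h.trans (radOne_dvd _ _ hne ⟨t.1 * t.2.2, by ring⟩)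
    · exact h.trans (radOne_dvd _ _ hne ⟨t.1 * t.2.1, by ring⟩)
  -- the height is large
  have hr3 : (p : ℝ) / 2 ≤ height t := by
    have h1 := le_height t r hne hr
    have h2 := (abs_le.1 hkr).1
    have h3 : (p : ℝ) ≤ k * p := le_mul_of_one_le_left hp0.le (by exact_mod_cast hk)
    linarith
  refine hgood (radOne (t.1 * t.2.1 * t.2.2)) ?_ k r hk hkr hr1
  rw [Real.rpow_one]
  refine ⟨hp1, t, ht, hno, ?_, rfl⟩
  have hrad0 : 0 ≤ rad t := by rw [← h6]; exact Nat.cast_nonneg _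
  -- `rad ^ (1/2) ≤ p ^ (13/16) ≤ p / 2`
  have h7 : rad t ^ (1 / 2 : ℝ) ≤ (p : ℝ) ^ (7 / 8 : ℝ) := by
    calc rad t ^ (1 / 2 : ℝ) ≤ ((p : ℝ) ^ (3 / 2 + ν)) ^ (1 / 2 : ℝ) := Real.rpow_le_rpow hrad0 hno (by norm_num)
      _ = (p : ℝ) ^ ((3 / 2 + ν) * (1 / 2)) := by rw [← Real.rpow_mul hp0.le]
      _ ≤ (p : ℝ) ^ (7 / 8 : ℝ) := Real.rpow_le_rpow_of_exponent_le hp1 (by linarith)
  have h8 : (p : ℝ) ^ (7 / 8 : ℝ) ≤ p / 2 := by
    have h9 : (2 : ℝ) ≤ (p : ℝ) ^ (1 / 8 : ℝ) := by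
      calc (2 : ℝ) = (256 : ℝ) ^ (1 / 8 : ℝ) := by
            rw [show (256 : ℝ) = 2 ^ (8 : ℝ) by norm_num, ← Real.rpow_mul (by norm_num)]
            norm_num
        _ ≤ (p : ℝ) ^ (1 / 8 : ℝ) := Real.rpow_le_rpow (by norm_num) (by linarith) (by norm_num)
    have h10 : (p : ℝ) = (p : ℝ) ^ (7 / 8 : ℝ) * (p : ℝ) ^ (1 / 8 : ℝ) := by
      rw [← Real.rpow_add hp0]
      norm_num
    have h11 : 0 < (p : ℝ) ^ (7 / 8 : ℝ) := by positivity
    nlinarith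
  linarith

end Pool.Agent.Results.MP_2a5a28_nt.StringsAllHeights
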