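import Pool.Agent.Q84.NX.Fam3
import Pool.Agent.Results.MP_2a5a28_nt.ExceptionalSet

/-!
# The abc conjecture over the integers of `ℚ(√5)` for all triples related to the primes of a string

Let `κ₁` be real and `0 < A < 37/20`. There is `c > 0`, for all `κ > 0` and `m` there is `c' > 0` and for every `Z` a
number `D` with the following property. For every large `X` there is a set `S` of at most `(log X) ^ (49 / 50)` primes,
all larger than `Z`, such that for EVERY function `f` with values `1` and `-1` on the primes at least `X ^ (1 - κ)`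
integers `n`, `X < n ≤ 3X`, satisfy: the interval `[n, n + D]` contains at least `m` primes, and for every prime `p` in
it

* the Legendre symbol `(p / q)` is `f q` for all odd primes `q ≤ c' log X` outside `S`;
* ALL triples `a + b + c = 0` in lowest terms with `abc ≠ 0` and `H ≤ p ^ A` for which the product of the norms of the
  primes dividing `abc` has a divisor `r` within `p ^ c` of a positive multiple of `p` (for instance: a prime over `p`
  divides `abc`) satisfy `rad > κ₁ H`.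

Method: the starting result `ExceptionalSet` counts the exceptional triples; the divisor bound; few primes divide a number near a divisor of an exceptional product (`Q84/NX/Core`, `Q84/NX/TriJ`); the Maynard-Tao
theorem relative to a modulus which is a small power of `X`, in the form that it avoids arbitrary exceptional sets of
size `X ^ (1 - η)` (`Q84/MB/E1-E4`), gives the strings.
-/

set_option autoImplicit false

open scoped Classical

namespace Pool.Agent.Results.MP_2a5a28_nt.StringsOfPrimes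

open Finset Filter NumberField IsDedekindDomain
open Pool.Agent.Results.MP_2a5a28_nt.ExceptionalSet (height rad Triple)

variable {K : Type} [Field K] [NumberField K]

/-- the radical as a natural number: the product of the norms of the prime ideals dividing `abc` -/
noncomputable def radN (t : 𝓞 K × 𝓞 K × 𝓞 K) : ℕ :=
  ∏ᶠ (P : HeightOneSpectrum (𝓞 K)) (_ : t.1 * t.2.1 * t.2.2 ∈ P.asIdeal), Ideal.absNorm P.asIdeal

/-- all triples with `H ≤ p ^ A` whose radical has a divisor `r` within `p ^ c` of a positive multiple of `p` have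
`rad > κ H` -/
def Fine (K : Type) [Field K] [NumberField K] (κ A c : ℝ) (p : ℕ) : Prop :=
  ∀ (t : 𝓞 K × 𝓞 K × 𝓞 K) (k r : ℕ), Triple t → height t ≤ (p : ℝ) ^ A → 1 ≤ k →
    |(r : ℝ) - k * p| ≤ (p : ℝ) ^ c → r ∣ radN t → κ * height t < rad t

/-- only finitely many primes divide `x` -/
theorem finite_primes (x : 𝓞 K) (hx : x ≠ 0) : {P : HeightOneSpectrum (𝓞 K) | x ∈ P.asIdeal}.Finite := by
  have h : {v : HeightOneSpectrum (𝓞 K) | v.asIdeal ∣ Ideal.span {x}}.Finite := by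
    apply Ideal.finite_factors
    simp only [Submodule.zero_eq_bot, ne_eq, Ideal.span_singleton_eq_bot, hx, not_false_eq_true]
  refine h.subset ?_
  intro P hP
  exact Ideal.dvd_span_singleton.2 hP

theorem radN_cast (t : 𝓞 K × 𝓞 K × 𝓞 K) (ht : t.1 * t.2.1 * t.2.2 ≠ 0) : 1 ≤ radN t ∧ (radN t : ℝ) = rad t := by
  have h1 : radN t = ∏ P ∈ (finite_primes _ ht).toFinset, Ideal.absNorm P.asIdeal :=
    finprod_mem_eq_finite_toFinset_prod _ (finite_primes _ ht)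
  have h2 : rad t = ∏ P ∈ (finite_primes _ ht).toFinset, (Ideal.absNorm P.asIdeal : ℝ) :=
    finprod_mem_eq_finite_toFinset_prod _ (finite_primes _ ht)
  constructor
  · rw [h1]
    refine Nat.one_le_iff_ne_zero.2 (prod_ne_zero_iff.2 fun v _ => ?_)
    rw [Ne, Ideal.absNorm_eq_zero_iff]
    exact v.ne_bot
  · rw [h1, h2]
    push_cast
    rfl

theorem radN_unit (t : 𝓞 K × 𝓞 K × 𝓞 K) (u : (𝓞 K)ˣ) :
    radN ((u : 𝓞 K) * t.1, (u : 𝓞 K) * t.2.1, (u : 𝓞 K) * t.2.2) = radN t := by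
  unfold radN
  apply finprod_congr
  intro P
  have h1 : ((u : 𝓞 K) * t.1) * ((u : 𝓞 K) * t.2.1) * ((u : 𝓞 K) * t.2.2) =
      ((u * u * u : (𝓞 K)ˣ) : 𝓞 K) * (t.1 * t.2.1 * t.2.2) := by
    push_cast
    ring
  have h2 : ((u : 𝓞 K) * t.1) * ((u : 𝓞 K) * t.2.1) * ((u : 𝓞 K) * t.2.2) ∈ P.asIdeal ↔
      t.1 * t.2.1 * t.2.2 ∈ P.asIdeal := by
    rw [h1, Ideal.unit_mul_mem_iff_mem _ (Units.isUnit _)]
  exact finprod_congr_Prop (propext h2) (fun _ => rfl)

/-- the set of the radicals of a set of triples -/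
def Rads (P : 𝓞 K × 𝓞 K × 𝓞 K → Prop) : Set ℕ := {u | ∃ t, Triple t ∧ P t ∧ radN t = u}

theorem count_rads (P : 𝓞 K × 𝓞 K × 𝓞 K → Prop) (M : ℝ)
    (h : ∀ E : Finset (𝓞 K × 𝓞 K × 𝓞 K), (∀ t ∈ E, Triple t ∧ P t) →
      (∀ t ∈ E, ∀ s ∈ E, ∀ u : (𝓞 K)ˣ, s = (u * t.1, u * t.2.1, u * t.2.2) → s = t) → (E.card : ℝ) ≤ M) :
    (Rads P).Finite ∧ ((Rads P).ncard : ℝ) ≤ M := by
  have hfin : ∀ F : Finset ℕ, (F : Set ℕ) ⊆ Rads P → (F.card : ℝ) ≤ M := by
    intro F hF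
    have hch : ∀ u : ℕ, ∃ t : 𝓞 K × 𝓞 K × 𝓞 K, u ∈ F → Triple t ∧ P t ∧ radN t = u := by
      intro u
      by_cases hu : u ∈ F
      · obtain ⟨t, ht⟩ := hF hu
        exact ⟨t, fun _ => ht⟩
      · exact ⟨0, fun h => absurd h hu⟩
    choose g hg using hch
    have hinj : Set.InjOn g (F : Set ℕ) := by
      intro u hu v hv huv
      have h1 := (hg u hu).2.2
      have h2 := (hg v hv).2.2
      rw [← h1, ← h2, huv]
    have hcard : (F.image g).card = F.card := card_image_of_injOn hinj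
    rw [← hcard]
    apply h
    · intro t ht
      rw [mem_image] at ht
      obtain ⟨u, hu, rfl⟩ := ht
      exact ⟨(hg u hu).1, (hg u hu).2.1⟩
    · intro t ht s hs w hw
      rw [mem_image] at ht hs
      obtain ⟨u, hu, rfl⟩ := ht
      obtain ⟨v, hv, rfl⟩ := hs
      have h1 := (hg u hu).2.2
      have h2 := (hg v hv).2.2
      have h3 : radN (g v) = radN (g u) := by
        rw [hw]
        exact radN_unit (g u) w
      rw [h1, h2] at h3
      rw [h3]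
  have hF : (Rads P).Finite := by
    by_contra hinf
    obtain ⟨F, hF1, hF2⟩ := (show (Rads P).Infinite from hinf).exists_subset_card_eq (⌊M⌋₊ + 1)
    have h1 := hfin F hF1
    rw [hF2] at h1
    push_cast at h1
    have h2 := Nat.lt_floor_add_one M
    linarith
  refine ⟨hF, ?_⟩
  rw [Set.ncard_eq_toFinset_card _ hF]
  apply hfin
  intro u hu
  rw [mem_coe, Set.Finite.mem_toFinset] at hu
  exact hu

/-- **Theorem.** -/
theorem result : ∀ (K : Type) [Field K] [NumberField K], Module.finrank ℚ K = 2 → (∃ s : K, s ^ 2 = 5) →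
    ∀ κ₁ A : ℝ, 0 < A → A < 37 / 20 → ∃ c : ℝ, 0 < c ∧
    ∀ κ : ℝ, 0 < κ → ∀ m : ℕ, ∃ c' : ℝ, 0 < c' ∧
    ∀ Z : ℕ, ∃ D : ℕ, ∃ X₀ : ℝ, ∀ X : ℝ, X₀ ≤ X →
    ∃ S : Finset ℕ, (∀ q ∈ S, q.Prime ∧ Z < q) ∧ (S.card : ℝ) ≤ (Real.log X) ^ (49 / 50 : ℝ) ∧
    ∀ f : ℕ → ℤ, (∀ q, f q = 1 ∨ f q = -1) →
      X ^ (1 - κ) ≤ (((Icc 1 ⌊3 * X⌋₊).filter fun n : ℕ => X < n ∧
        m ≤ ((Icc n (n + D)).filter Nat.Prime).card ∧
        ∀ p ∈ Icc n (n + D), p.Prime → Fine K κ₁ A c p ∧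
          ∀ q : ℕ, q.Prime → q ≠ 2 → (q : ℝ) ≤ c' * Real.log X → q ∉ S → jacobiSym p q = f q).card : ℝ) := by
  intro K _ _ hK hs5 κ₁ A hA0 hA1
  -- parameters
  obtain ⟨ε, hε⟩ : ∃ ε, ε = (1 - A * (20 / 37)) / (2 * A) := ⟨_, rfl⟩
  have hε0 : 0 < ε := by rw [hε]; exact div_pos (by linarith) (by linarith)
  have hAε : A * (20 / 37 + ε) < 1 := by
    have h2 : A * ε = (1 - A * (20 / 37)) / 2 := by
      rw [hε]
      field_simp
    rw [mul_add]
    linarith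
  obtain ⟨C, hC⟩ := ExceptionalSet.result K hK hs5 κ₁ ε hε0
  have hh0 : ∀ t : 𝓞 K × 𝓞 K × 𝓞 K, 0 ≤ height t := fun t =>
    Finset.prod_nonneg fun φ _ => (norm_nonneg _).trans (le_max_left _ _)
  obtain ⟨E, hE⟩ : ∃ E : ℝ → Set ℕ, E = fun B : ℝ =>
    Rads (fun t : 𝓞 K × 𝓞 K × 𝓞 K => height t ≤ B ∧ rad t ≤ κ₁ * height t) := ⟨_, rfl⟩
  have hmono : ∀ B B' : ℝ, B ≤ B' → E B ⊆ E B' := by
    intro B B' hBB u hu
    rw [hE] at hu ⊢
    obtain ⟨t, h1, ⟨h2, h3⟩, h4⟩ := hu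
    exact ⟨t, h1, ⟨h2.trans hBB, h3⟩, h4⟩
  have hsize : ∀ B : ℝ, max 1 κ₁ ≤ B → ∀ u ∈ E B, 1 ≤ id u ∧ ((id u : ℕ) : ℝ) ≤ B ^ 2 := by
    intro B hB u hu
    have hB1 : 1 ≤ B := (le_max_left _ _).trans hB
    have hBκ : κ₁ ≤ B := (le_max_right _ _).trans hB
    rw [hE] at hu
    obtain ⟨t, h1, ⟨h2, h3⟩, h4⟩ := hu
    obtain ⟨h5, h6⟩ := radN_cast t h1.ne
    rw [h4] at h5 h6
    refine ⟨h5, ?_⟩
    rw [id, h6]
    calc rad t ≤ κ₁ * height t := h3
      _ ≤ B * B := mul_le_mul hBκ h2 (hh0 t) (by linarith)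
      _ = B ^ 2 := by ring
  have hcount : ∀ B : ℝ, 1 ≤ B → (E B).Finite ∧ ((E B).ncard : ℝ) ≤ C * B ^ (20 / 37 + ε : ℝ) := by
    intro B hB
    rw [hE]
    exact count_rads (fun t : 𝓞 K × 𝓞 K × 𝓞 K => height t ≤ B ∧ rad t ≤ κ₁ * height t)
      (C * B ^ (20 / 37 + ε : ℝ)) (fun E' h1 h2 => hC B hB E' h1 h2)
  obtain ⟨c, hc, hc4, hmain⟩ := Pool.Agent.Q84.NX.obj_strings E hmono id 2 (by norm_num) (max 1 κ₁) hsize A
    (20 / 37 + ε) C hA0 (by linarith) hAε hcount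
  refine ⟨c, hc, fun κ hκ m => ?_⟩
  obtain ⟨c', hc', h⟩ := hmain κ hκ m
  refine ⟨c', hc', fun Z => ?_⟩
  obtain ⟨D, X₀, hX₀⟩ := h Z
  refine ⟨D, X₀, fun X hX => ?_⟩
  obtain ⟨S, hS1, hS2, hS3⟩ := hX₀ X hX
  refine ⟨S, hS1, hS2, fun f hf => (hS3 f hf).trans ?_⟩
  rw [Nat.cast_le]
  apply card_le_card
  intro n hn
  rw [mem_filter] at hn ⊢
  obtain ⟨hn1, hn2, hn3, hn4⟩ := hn
  refine ⟨hn1, hn2, hn3, fun p hp hpp => ⟨?_, (hn4 p hp hpp).2⟩⟩
  have hgood := (hn4 p hp hpp).1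
  intro t k r ht hH hk hkr hr
  by_contra hcon
  push Not at hcon
  refine hgood (radN t) ?_ k r hk hkr hr
  rw [hE]
  exact ⟨t, ht, ⟨hH, hcon⟩, rfl⟩

end Pool.Agent.Results.MP_2a5a28_nt.StringsOfPrimes
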